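import Pool.Agent.Work.MP_c20ce7_dm82.OWN

set_option autoImplicit false

/-!
# Points of the characteristic variety over the support

`W.Simple.exists_point`: if `g` is not locally nilpotent on the simple module then there is a point `x0` with
`g x0 ≠ 0` such that `(x0, 0)` is in the characteristic variety.
-/

open MvPolynomial

noncomputable section

namespace Pool.DM

variable {σ : Type} [Fintype σ] [DecidableEq σ] {L : Type} [AddCommGroup L] [Module ℂ L]

/-- The ideal of the functions which kill the vector `u`. -/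
def WMod.annI (W : WMod σ L) (u : L) : Ideal (MvPolynomial σ ℂ) where
  carrier := {f | W.x f u = 0}
  add_mem' := by
    intro f g hf hg
    change W.x (f + g) u = 0
    rw [map_add, LinearMap.add_apply, show W.x f u = 0 from hf, show W.x g u = 0 from hg, add_zero]
  zero_mem' := by
    change W.x 0 u = 0
    rw [map_zero, LinearMap.zero_apply]
  smul_mem' := by
    intro c f hf
    change W.x (c * f) u = 0
    rw [map_mul, Module.End.mul_apply, show W.x f u = 0 from hf, map_zero]

theorem WMod.mem_annI (W : WMod σ L) (u : L) (f : MvPolynomial σ ℂ) :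
    f ∈ W.annI u ↔ W.x f u = 0 := Iff.rfl

/-- A common zero of all functions which kill one vector gives a point of the characteristic variety on the zero
section. -/
theorem WMod.Simple.inCh_zero {W : WMod σ L} (h : W.Simple) {u : L} (hu : u ≠ 0) {x0 : σ → ℂ}
    (hx : ∀ f : MvPolynomial σ ℂ, W.x f u = 0 → eval x0 f = 0) : W.InCh x0 0 := by
  refine h.inCh_of_one hu fun k P hP hPu => ?_
  rcases Nat.eq_zero_or_pos k with rfl | hk
  · -- `P` is a function
    have h1 : ∃ f : MvPolynomial σ ℂ, P = rename Sum.inl f := by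
      refine Fil_ind (fun P => ∃ f : MvPolynomial σ ℂ, P = rename Sum.inl f) ⟨0, by simp⟩ ?_ ?_ hP
      · rintro p q ⟨f, rfl⟩ ⟨g, rfl⟩
        exact ⟨f + g, by rw [map_add]⟩
      · intro m c hm
        have h0 : ∀ i, m (Sum.inr i) = 0 := by
          have : xd m = 0 := by omega
          rw [xd] at this
          intro i
          exact (Finset.sum_eq_zero_iff.1 this) i (Finset.mem_univ i)
        refine ⟨monomial (Finsupp.sumFinsuppEquivProdFinsupp m).1 c, ?_⟩
        have h2 := monomial_split m c
        have h3 : (Finsupp.sumFinsuppEquivProdFinsupp m).2 = 0 := by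
          ext i
          simpa using h0 i
        rw [h3] at h2
        rw [h2]
        simp
    obtain ⟨f, rfl⟩ := h1
    rw [symAt_inl]
    refine hx f ?_
    rwa [W.nf_x] at hPu
  · rw [symAt_apply]
    have h2 : evt x0 (0 : σ → ℂ) P = Polynomial.C (eval (Sum.elim x0 0) P) := by
      have h3 : (evt x0 (0 : σ → ℂ) : MvPolynomial (σ ⊕ σ) ℂ →ₐ[ℂ] Polynomial ℂ) =
          (Algebra.ofId ℂ (Polynomial ℂ)).comp (aeval (Sum.elim x0 (0 : σ → ℂ))) := by
        refine MvPolynomial.algHom_ext fun i => ?_
        rcases i with i | i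
        · simp [evt, Algebra.ofId_apply]
        · simp [evt, Algebra.ofId_apply]
      rw [h3, AlgHom.comp_apply, Algebra.ofId_apply]
      rw [Polynomial.algebraMap_apply]
      simp [MvPolynomial.aeval_eq_eval]
    rw [h2, Polynomial.coeff_C, if_neg (by omega)]

/-- If `g` is not locally nilpotent then the characteristic variety has a point `(x0, 0)` with `g x0 ≠ 0`. -/
theorem WMod.Simple.exists_point {W : WMod σ L} (h : W.Simple) (g : MvPolynomial σ ℂ)
    (hg : ¬ LocNil (W.x g)) : ∃ x0 : σ → ℂ, eval x0 g ≠ 0 ∧ W.InCh x0 0 := by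
  rw [LocNil] at hg
  push Not at hg
  obtain ⟨u, hu⟩ := hg
  have hu0 : u ≠ 0 := by simpa using hu 0
  have h1 : g ∉ (W.annI u).radical := by
    rintro ⟨k, hk⟩
    rw [W.mem_annI, map_pow] at hk
    exact hu k hk
  rw [← vanishingIdeal_zeroLocus_eq_radical (K := ℂ), mem_vanishingIdeal_iff] at h1
  push Not at h1
  obtain ⟨x0, hx0, hg0⟩ := h1
  refine ⟨x0, by simpa [MvPolynomial.aeval_eq_eval] using hg0, h.inCh_zero hu0 fun f hf => ?_⟩
  have := hx0 f ((W.mem_annI u f).2 hf)
  simpa [MvPolynomial.aeval_eq_eval] using this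

end Pool.DM
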